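import Pool.Agent.H660.UT.Sim

set_option autoImplicit false

/-! # Circuits with unknown inputs and few free gates (helper698) -/

open scoped Classical

namespace Pool.Agent.H698.UF

open Pool.Agent.H698.HF
open Pool.Agent.H520R2.NM
open Pool.Agent.H660.UT (Height lift eval_lift thr thr_zero thr_gt)

/-- `FCirc t l`: `l` is the list of the functions computed at the gates of a circuit (last gate
first) with `t` free gates. An input gate reads one bit `e`; it translates unknown, known true and
known false into elements of `D`, the one for unknown being below the other two. A constant gate has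
a fixed value. Each other gate applies a function of two arguments, nondecreasing in both, to the
values of two earlier gates, or it is free: it applies an arbitrary function `D → D` to the value of
one earlier gate (for instance it tests whether this value is unknown, or it replaces unknown by a
default value). -/
inductive FCirc {E D : Type} [PartialOrder D] : ℕ → List (Know E → D) → Prop
  | nil : FCirc 0 []
  | input {t : ℕ} {l : List (Know E → D)} (e : E) (i : Option Bool → D) :
      FCirc t l → (∀ b, i none ≤ i (some b)) → FCirc t ((fun P => i (P e)) :: l)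
  | const {t : ℕ} {l : List (Know E → D)} (c : D) : FCirc t l → FCirc t ((fun _ => c) :: l)
  | gate {t : ℕ} {l : List (Know E → D)} {φ : D → D → D} {f g : Know E → D} :
      FCirc t l → (∀ a a' b b', a ≤ a' → b ≤ b' → φ a b ≤ φ a' b') → f ∈ l → g ∈ l →
      FCirc t ((fun P => φ (f P) (g P)) :: l)
  | free {t : ℕ} {l : List (Know E → D)} (φ : D → D) {f : Know E → D} :
      FCirc t l → f ∈ l → FCirc (t + 1) ((fun P => φ (f P)) :: l)

section comp

variable {ι : Type}

/-- the Boolean functions in `T` are computed by a circuit with at most `s` AND and OR gates and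
arbitrary gates with the numbers `ws` of inputs -/
def CompF (s : ℕ) (ws : List ℕ) (T : Set ((ι → Bool) → Bool)) : Prop :=
  ∃ (N : ℕ) (C : Circuit ι N), C.fanins = ws ∧ C.size ≤ s ∧
    ∀ F ∈ T, ∃ w : Wire ι N, ∀ x, w.eval x (C.vals x) = F x

theorem comp_empty : CompF 0 [] (∅ : Set ((ι → Bool) → Bool)) :=
  ⟨0, .empty, rfl, le_rfl, fun F hF => absurd hF (by simp)⟩

theorem comp_mono {s s' : ℕ} {ws : List ℕ} {T T' : Set ((ι → Bool) → Bool)} (h : CompF s ws T)
    (hs : s ≤ s') (hT : T' ⊆ T) : CompF s' ws T' := by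
  obtain ⟨N, C, h1, h2, h3⟩ := h
  exact ⟨N, C, h1, h2.trans hs, fun F hF => h3 F (hT hF)⟩

theorem comp_const {s : ℕ} {ws : List ℕ} {T : Set ((ι → Bool) → Bool)} (h : CompF s ws T)
    (b : Bool) : CompF s ws (insert (fun _ => b) T) := by
  obtain ⟨N, C, h1, h2, h3⟩ := h
  refine ⟨N, C, h1, h2, fun F hF => ?_⟩
  rcases hF with rfl | hF
  · exact ⟨.const b, fun x => rfl⟩
  · exact h3 F hF

theorem comp_input {s : ℕ} {ws : List ℕ} {T : Set ((ι → Bool) → Bool)} (h : CompF s ws T)
    (i : ι) : CompF s ws (insert (fun x => x i) T) := by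
  obtain ⟨N, C, h1, h2, h3⟩ := h
  refine ⟨N, C, h1, h2, fun F hF => ?_⟩
  rcases hF with rfl | hF
  · exact ⟨.input i, fun x => rfl⟩
  · exact h3 F hF

theorem comp_and {s : ℕ} {ws : List ℕ} {T : Set ((ι → Bool) → Bool)} (h : CompF s ws T)
    {F G : (ι → Bool) → Bool} (hF : F ∈ T) (hG : G ∈ T) :
    CompF (s + 1) ws (insert (fun x => F x && G x) T) := by
  obtain ⟨N, C, h1, h2, h3⟩ := h
  obtain ⟨a, ha⟩ := h3 F hF
  obtain ⟨b, hb⟩ := h3 G hG
  refine ⟨N + 1, .and C a b, h1, Nat.succ_le_succ h2, fun K hK => ?_⟩
  rcases hK with rfl | hK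
  · refine ⟨.gate (Fin.last N), fun x => ?_⟩
    show Fin.snoc (α := fun _ => Bool) (C.vals x) _ (Fin.last N) = _
    rw [Fin.snoc_last, ha, hb]
  · obtain ⟨w, hw⟩ := h3 K hK
    exact ⟨lift w, fun x => (eval_lift x _ _ w).trans (hw x)⟩

theorem comp_or {s : ℕ} {ws : List ℕ} {T : Set ((ι → Bool) → Bool)} (h : CompF s ws T)
    {F G : (ι → Bool) → Bool} (hF : F ∈ T) (hG : G ∈ T) :
    CompF (s + 1) ws (insert (fun x => F x || G x) T) := by
  obtain ⟨N, C, h1, h2, h3⟩ := h
  obtain ⟨a, ha⟩ := h3 F hF
  obtain ⟨b, hb⟩ := h3 G hG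
  refine ⟨N + 1, .or C a b, h1, Nat.succ_le_succ h2, fun K hK => ?_⟩
  rcases hK with rfl | hK
  · refine ⟨.gate (Fin.last N), fun x => ?_⟩
    show Fin.snoc (α := fun _ => Bool) (C.vals x) _ (Fin.last N) = _
    rw [Fin.snoc_last, ha, hb]
  · obtain ⟨w, hw⟩ := h3 K hK
    exact ⟨lift w, fun x => (eval_lift x _ _ w).trans (hw x)⟩

/-- a wire of the circuit with a further arbitrary gate -/
def lifts {n : ℕ} (u : ℕ) : Wire ι n → Wire ι (n + u)
  | .input i => .input i
  | .const b => .const b
  | .gate j => .gate (Fin.castAdd u j)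

theorem eval_lifts {n u : ℕ} (x : ι → Bool) (v : Fin n → Bool) (b : Fin u → Bool) (w : Wire ι n) :
    (lifts u w).eval x (Fin.append v b) = w.eval x v := by
  cases w with
  | input i => rfl
  | const b => rfl
  | gate j => simp [lifts, Wire.eval]

theorem comp_any {s : ℕ} {ws : List ℕ} {T : Set ((ι → Bool) → Bool)} (h : CompF s ws T)
    (w u : ℕ) (G : (Fin w → Bool) → Fin u → Bool) (a : Fin w → (ι → Bool) → Bool)
    (ha : ∀ i, a i ∈ T) :
    CompF s (w :: ws) (T ∪ Set.range fun (k : Fin u) (x : ι → Bool) => G (fun i => a i x) k) := by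
  obtain ⟨N, C, h1, h2, h3⟩ := h
  choose b hb using fun i => h3 (a i) (ha i)
  refine ⟨N + u, .any C w u G b, ?_, h2, fun K hK => ?_⟩
  · show w :: C.fanins = _
    rw [h1]
  rcases hK with hK | ⟨k, rfl⟩
  · obtain ⟨v, hv⟩ := h3 K hK
    exact ⟨lifts u v, fun x => (eval_lifts x _ _ v).trans (hv x)⟩
  · refine ⟨.gate (Fin.natAdd N k), fun x => ?_⟩
    show Fin.append (C.vals x) (G fun j => (b j).eval x (C.vals x)) (Fin.natAdd N k) = _
    rw [Fin.append_right]
    congr 2
    funext i
    exact hb i x

theorem comp_orand {s : ℕ} {ws : List ℕ} {T : Set ((ι → Bool) → Bool)} (h : CompF s ws T)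
    (L : List (((ι → Bool) → Bool) × ((ι → Bool) → Bool))) (hL : ∀ p ∈ L, p.1 ∈ T ∧ p.2 ∈ T) :
    CompF (s + 2 * L.length) ws (insert (fun x => L.any fun p => p.1 x && p.2 x) T) := by
  induction L with
  | nil => exact comp_const h false
  | cons p L ih =>
    have h1 := ih fun q hq => hL q (List.mem_cons_of_mem _ hq)
    have hp := hL p List.mem_cons_self
    have h2 := comp_and h1 (Set.mem_insert_of_mem _ hp.1) (Set.mem_insert_of_mem _ hp.2)
    have h3 := comp_or h2 (Set.mem_insert _ _) (Set.mem_insert_of_mem _ (Set.mem_insert _ _))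
    refine comp_mono h3 (by simp only [List.length_cons]; omega) ?_
    intro F hF
    rcases hF with rfl | hF
    · left
      funext x
      simp only [List.any_cons]
    · right; right; right; exact hF

/-- a function of ranks which is monotone in the ranks -/
theorem comp_rank {s H : ℕ} {ws : List ℕ} {T : Set ((ι → Bool) → Bool)} (h : CompF s ws T)
    {r1 r2 r : (ι → Bool) → ℕ} (h1 : ∀ x, r1 x ≤ H) (h2 : ∀ x, r2 x ≤ H)
    (hT1 : ∀ j, thr r1 j ∈ T) (hT2 : ∀ j, thr r2 j ∈ T)
    (hmono : ∀ x y, r1 x ≤ r1 y → r2 x ≤ r2 y → r x ≤ r y) (j : ℕ) :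
    CompF (s + 2 * (H + 1)) ws (insert (thr r j) T) := by
  have hex : ∀ p : ℕ, ∃ q, ∀ y, p ≤ r1 y → q ≤ r2 y → j ≤ r y := fun p =>
    ⟨H + 1, fun y _ hy => absurd (hy.trans (h2 y)) (by omega)⟩
  let q : ℕ → ℕ := fun p => Nat.find (hex p)
  have hq : ∀ p y, p ≤ r1 y → q p ≤ r2 y → j ≤ r y := fun p => Nat.find_spec (hex p)
  let L : List (((ι → Bool) → Bool) × ((ι → Bool) → Bool)) :=
    (List.range (H + 1)).map fun p => (thr r1 p, thr r2 (q p))
  have h3 := comp_orand h L (by
    intro z hz
    obtain ⟨p, -, rfl⟩ := List.mem_map.1 hz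
    exact ⟨hT1 p, hT2 (q p)⟩)
  have h4 : (fun x => L.any fun p => p.1 x && p.2 x) = thr r j := by
    funext x
    rw [Bool.eq_iff_iff]
    simp only [L, thr, List.any_map, List.any_eq_true, List.mem_range, Function.comp,
      Bool.and_eq_true, decide_eq_true_eq]
    constructor
    · rintro ⟨p, -, hp1, hp2⟩
      exact hq p x hp1 hp2
    · intro hj
      refine ⟨r1 x, Nat.lt_succ_of_le (h1 x), le_rfl, ?_⟩
      exact Nat.find_min' (hex (r1 x)) fun y hy1 hy2 => hj.trans (hmono x y hy1 hy2)
  rw [h4] at h3
  exact comp_mono h3 (by simp [L]) le_rfl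

theorem comp_ranks {s H : ℕ} {ws : List ℕ} {T : Set ((ι → Bool) → Bool)} (h : CompF s ws T)
    {r1 r2 r : (ι → Bool) → ℕ} (h1 : ∀ x, r1 x ≤ H) (h2 : ∀ x, r2 x ≤ H)
    (hT1 : ∀ j, thr r1 j ∈ T) (hT2 : ∀ j, thr r2 j ∈ T)
    (hmono : ∀ x y, r1 x ≤ r1 y → r2 x ≤ r2 y → r x ≤ r y) (k : ℕ) :
    CompF (s + k * (2 * (H + 1))) ws (T ∪ {F | ∃ j, 1 ≤ j ∧ j ≤ k ∧ F = thr r j}) := by
  induction k with
  | zero =>
    refine comp_mono h (by omega) ?_
    rintro F (hF | ⟨j, hj1, hj2, -⟩)
    · exact hF
    · omega
  | succ k ih =>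
    have h3 := comp_rank ih h1 h2 (fun j => Or.inl (hT1 j)) (fun j => Or.inl (hT2 j)) hmono (k + 1)
    refine comp_mono h3 (by ring_nf; omega) ?_
    rintro F (hF | ⟨j, hj1, hj2, rfl⟩)
    · exact Or.inr (Or.inl hF)
    · rcases Nat.lt_or_ge j (k + 1) with hj | hj
      · exact Or.inr (Or.inr ⟨j, hj1, by omega, rfl⟩)
      · have : j = k + 1 := by omega
        rw [this]
        exact Or.inl rfl

/-- all the thresholds of a new rank function -/
theorem comp_all {s H : ℕ} {ws : List ℕ} {T : Set ((ι → Bool) → Bool)} (h : CompF s ws T)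
    {r1 r2 r : (ι → Bool) → ℕ} (h1 : ∀ x, r1 x ≤ H) (h2 : ∀ x, r2 x ≤ H) (h0 : ∀ x, r x ≤ H)
    (hT1 : ∀ j, thr r1 j ∈ T) (hT2 : ∀ j, thr r2 j ∈ T)
    (hmono : ∀ x y, r1 x ≤ r1 y → r2 x ≤ r2 y → r x ≤ r y) :
    ∃ T', T ⊆ T' ∧ CompF (s + 2 * H * (H + 1)) ws T' ∧ ∀ j, thr r j ∈ T' := by
  have h3 := comp_const (comp_const (comp_ranks h h1 h2 hT1 hT2 hmono H) true) false
  refine ⟨_, ?_, comp_mono h3 (by ring_nf; omega) le_rfl, ?_⟩
  · intro F hF
    exact Or.inr (Or.inr (Or.inl hF))
  · intro j
    rcases Nat.eq_zero_or_pos j with rfl | hj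
    · rw [thr_zero]
      exact Or.inr (Or.inl rfl)
    · rcases Nat.lt_or_ge H j with hj2 | hj2
      · rw [thr_gt h0 hj2]
        exact Or.inl rfl
      · exact Or.inr (Or.inr (Or.inr ⟨j, hj, hj2, rfl⟩))

/-- steps for all members of a list -/
theorem comp_many {β : Type} {s c : ℕ} {ws : List ℕ} {T : Set ((ι → Bool) → Bool)}
    (h : CompF s ws T) (Q : β → Set ((ι → Bool) → Bool))
    (step : ∀ b, ∀ (s' : ℕ) (T' : Set ((ι → Bool) → Bool)), T ⊆ T' → CompF s' ws T' →
      ∃ T'', T' ⊆ T'' ∧ CompF (s' + c) ws T'' ∧ Q b ⊆ T'') (L : List β) :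
    ∃ T', T ⊆ T' ∧ CompF (s + L.length * c) ws T' ∧ ∀ b ∈ L, Q b ⊆ T' := by
  induction L with
  | nil => exact ⟨T, le_rfl, comp_mono h (by simp) le_rfl, fun b hb => absurd hb (by simp)⟩
  | cons b L ih =>
    obtain ⟨T1, h1, h2, h3⟩ := ih
    obtain ⟨T2, h4, h5, h6⟩ := step b _ T1 h1 h2
    refine ⟨T2, h1.trans h4, comp_mono h5 (by simp only [List.length_cons]; ring_nf; omega) le_rfl,
      fun b' hb' => ?_⟩
    rcases List.mem_cons.1 hb' with rfl | hb'
    · exact h6
    · exact (h3 b' hb').trans h4

end comp

section sim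

variable {ι E : Type} {D : Type} [PartialOrder D]

/-- the simulation: the branches `b` are the possible results of the free gates -/
theorem simF {H : ℕ} (hH : 1 ≤ H) {f : D → D → ℕ} (hf1 : ∀ a, ∀ x ≤ a, f a x ≤ H)
    (hf2 : ∀ a, ∀ x ≤ a, ∀ y ≤ a, (x ≤ y ↔ f a x ≤ f a y))
    (tr : (ι → Bool) → E → Prop)
    (htr : ∀ e, (∃ i, ∀ x, tr x e ↔ x i = true) ∨ ∀ x, ¬ tr x e)
    {t : ℕ} {l : List (Know E → D)} (hl : FCirc t l) :
    ∃ (B : Type) (_ : Fintype B) (s : B → (ι → Bool) → Bool) (T : Set ((ι → Bool) → Bool)),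
      Fintype.card B ≤ (H + 1) ^ t ∧
      CompF (2 * H * (H + 1) * l.length * (H + 1) ^ t) (List.replicate t H) T ∧
      (∀ b, s b ∈ T) ∧ (∀ x, ∃! b, s b x = true) ∧
      ∀ g ∈ l, ∀ b, ∃ (a : D) (g' : (ι → Bool) → D), (∀ x, g' x ≤ a) ∧
        (∀ x, s b x = true → g (truths (tr x)) = g' x) ∧
        ∀ j, thr (fun x => f a (g' x)) j ∈ T := by
  induction hl with
  | nil =>
    refine ⟨Unit, inferInstance, fun _ _ => true, insert (fun _ => true) ∅, by simp,
      comp_mono (comp_const comp_empty true) (by simp) le_rfl, fun _ => Or.inl rfl,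
      fun x => ⟨(), rfl, fun _ _ => rfl⟩, fun g hg => absurd hg (by simp)⟩
  | @input t l e i hl hi ih =>
    obtain ⟨B, _, s, T, hB, hT, hs, hu, hg⟩ := ih
    have hlen : 2 * H * (H + 1) * l.length * (H + 1) ^ t ≤
        2 * H * (H + 1) * (((fun P => i (P e)) :: l : List (Know E → D)).length) *
          (H + 1) ^ t := by
      refine Nat.mul_le_mul_right _ (Nat.mul_le_mul_left _ ?_)
      simp
    rcases htr e with ⟨k, hk⟩ | hk
    · have h3 := comp_input (comp_const (comp_const hT true) false) k
      refine ⟨B, inferInstance, s, _, hB, comp_mono h3 hlen le_rfl,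
        fun b => Or.inr (Or.inr (Or.inr (hs b))), hu, ?_⟩
      intro g hgm b
      rcases List.mem_cons.1 hgm with rfl | hgm
      · refine ⟨i (some true), fun x => if x k = true then i (some true) else i none,
          fun x => ?_, fun x _ => ?_, fun j => ?_⟩
        · dsimp only
          split_ifs
          · exact le_rfl
          · exact hi true
        · show i (truths (tr x) e) = _
          unfold truths
          by_cases hx : x k = true
          · simp [(hk x).2 hx, hx]
          · simp [mt (hk x).1 hx, hx]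
        · have hle : f (i (some true)) (i none) ≤ f (i (some true)) (i (some true)) :=
            (hf2 _ _ (hi true) _ le_rfl).1 (hi true)
          by_cases h1 : j ≤ f (i (some true)) (i none)
          · have : thr (fun x : ι → Bool => f (i (some true))
                (if x k = true then i (some true) else i none)) j = fun _ => true := by
              funext x
              simp only [thr, decide_eq_true_eq]
              split_ifs
              · exact h1.trans hle
              · exact h1
            rw [this]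
            exact Or.inr (Or.inr (Or.inl rfl))
          · by_cases h2 : j ≤ f (i (some true)) (i (some true))
            · have : thr (fun x : ι → Bool => f (i (some true))
                  (if x k = true then i (some true) else i none)) j = fun x => x k := by
                funext x
                simp only [thr]
                by_cases hx : x k = true
                · simp [hx, h2]
                · have hx' : x k = false := by simpa using hx
                  simp only [hx']
                  simpa using h1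
              rw [this]
              exact Or.inl rfl
            · have : thr (fun x : ι → Bool => f (i (some true))
                  (if x k = true then i (some true) else i none)) j = fun _ => false := by
                funext x
                simp only [thr, decide_eq_false_iff_not]
                split_ifs
                · exact h2
                · exact h1
              rw [this]
              exact Or.inr (Or.inl rfl)
      · obtain ⟨a, g', h4, h5, h6⟩ := hg g hgm b
        exact ⟨a, g', h4, h5, fun j => Or.inr (Or.inr (Or.inr (h6 j)))⟩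
    · have h3 := comp_const (comp_const hT true) false
      refine ⟨B, inferInstance, s, _, hB, comp_mono h3 hlen le_rfl,
        fun b => Or.inr (Or.inr (hs b)), hu, ?_⟩
      intro g hgm b
      rcases List.mem_cons.1 hgm with rfl | hgm
      · refine ⟨i none, fun _ => i none, fun x => le_rfl, fun x _ => ?_, fun j => ?_⟩
        · show i (truths (tr x) e) = _
          unfold truths
          simp [hk x]
        · by_cases h1 : j ≤ f (i none) (i none)
          · have : thr (fun _ : ι → Bool => f (i none) (i none)) j = fun _ => true := by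
              funext x
              exact decide_eq_true h1
            rw [this]
            exact Or.inr (Or.inl rfl)
          · have : thr (fun _ : ι → Bool => f (i none) (i none)) j = fun _ => false := by
              funext x
              exact decide_eq_false h1
            rw [this]
            exact Or.inl rfl
      · obtain ⟨a, g', h4, h5, h6⟩ := hg g hgm b
        exact ⟨a, g', h4, h5, fun j => Or.inr (Or.inr (h6 j))⟩
  | @const t l c hl ih =>
    obtain ⟨B, _, s, T, hB, hT, hs, hu, hg⟩ := ih
    have h3 := comp_const (comp_const hT true) false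
    refine ⟨B, inferInstance, s, _, hB, comp_mono h3 (Nat.mul_le_mul_right _
      (Nat.mul_le_mul_left _ (by simp))) le_rfl, fun b => Or.inr (Or.inr (hs b)), hu, ?_⟩
    intro g hgm b
    rcases List.mem_cons.1 hgm with rfl | hgm
    · refine ⟨c, fun _ => c, fun x => le_rfl, fun x _ => rfl, fun j => ?_⟩
      by_cases h1 : j ≤ f c c
      · have : thr (fun _ : ι → Bool => f c c) j = fun _ => true := by
          funext x
          exact decide_eq_true h1
        rw [this]
        exact Or.inr (Or.inl rfl)
      · have : thr (fun _ : ι → Bool => f c c) j = fun _ => false := by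
          funext x
          exact decide_eq_false h1
        rw [this]
        exact Or.inl rfl
    · obtain ⟨a, g', h4, h5, h6⟩ := hg g hgm b
      exact ⟨a, g', h4, h5, fun j => Or.inr (Or.inr (h6 j))⟩
  | @gate t l φ g1 g2 hl hφ hg1 hg2 ih =>
    obtain ⟨B, _, s, T, hB, hT, hs, hu, hg⟩ := ih
    choose a1 u1 p1 p2 p3 using hg g1 hg1
    choose a2 u2 q1 q2 q3 using hg g2 hg2
    have hle : ∀ b x, φ (u1 b x) (u2 b x) ≤ φ (a1 b) (a2 b) :=
      fun b x => hφ _ _ _ _ (p1 b x) (q1 b x)
    obtain ⟨T', h1, h2, h3⟩ := comp_many (c := 2 * H * (H + 1)) hT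
      (fun b : B => {F | ∃ j, F = thr (fun x => f (φ (a1 b) (a2 b)) (φ (u1 b x) (u2 b x))) j})
      (fun b s' T1 hT1 hC => by
        obtain ⟨T2, e1, e2, e3⟩ := comp_all
          (r := fun x => f (φ (a1 b) (a2 b)) (φ (u1 b x) (u2 b x))) hC
          (r1 := fun x => f (a1 b) (u1 b x)) (r2 := fun x => f (a2 b) (u2 b x)) (H := H)
          (fun x => hf1 _ _ (p1 b x)) (fun x => hf1 _ _ (q1 b x)) (fun x => hf1 _ _ (hle b x))
          (fun j => hT1 (p3 b j)) (fun j => hT1 (q3 b j)) (by
            intro x y h1 h2
            have e1 := (hf2 _ _ (p1 b x) _ (p1 b y)).2 h1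
            have e2 := (hf2 _ _ (q1 b x) _ (q1 b y)).2 h2
            exact (hf2 _ _ (hle b x) _ (hle b y)).1 (hφ _ _ _ _ e1 e2))
        refine ⟨T2, e1, e2, ?_⟩
        rintro F ⟨j, rfl⟩
        exact e3 j)
      (Finset.univ : Finset B).toList
    refine ⟨B, inferInstance, s, T', hB, comp_mono h2 ?_ le_rfl, fun b => h1 (hs b), hu, ?_⟩
    · rw [Finset.length_toList, Finset.card_univ, List.length_cons]
      calc 2 * H * (H + 1) * l.length * (H + 1) ^ t + Fintype.card B * (2 * H * (H + 1))
          ≤ 2 * H * (H + 1) * l.length * (H + 1) ^ t + (H + 1) ^ t * (2 * H * (H + 1)) :=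
            Nat.add_le_add_left (Nat.mul_le_mul_right _ hB) _
        _ = _ := by ring
    · intro g hgm b
      rcases List.mem_cons.1 hgm with rfl | hgm
      · refine ⟨φ (a1 b) (a2 b), fun x => φ (u1 b x) (u2 b x), hle b, fun x hx => ?_, fun j => ?_⟩
        · show φ (g1 _) (g2 _) = _
          rw [p2 b x hx, q2 b x hx]
        · exact h3 b (Finset.mem_toList.2 (Finset.mem_univ b)) ⟨j, rfl⟩
      · obtain ⟨a, g', h4, h5, h6⟩ := hg g hgm b
        exact ⟨a, g', h4, h5, fun j => h1 (h6 j)⟩
  | @free t l φ g1 hl hg1 ih =>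
    obtain ⟨B, _, s, T, hB, hT, hs, hu, hg⟩ := ih
    choose a1 u1 p1 p2 p3 using hg g1 hg1
    -- the multiplexed bits
    let m : ℕ → (ι → Bool) → Bool := fun j x =>
      ((Finset.univ : Finset B).toList.map fun b =>
        (s b, thr (fun x => f (a1 b) (u1 b x)) j)).any fun p => p.1 x && p.2 x
    have hm : ∀ j x b, s b x = true → m j x = decide (j ≤ f (a1 b) (u1 b x)) := by
      intro j x b hb
      rw [Bool.eq_iff_iff]
      simp only [m, List.any_map, List.any_eq_true, Finset.mem_toList, Finset.mem_univ, true_and,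
        Function.comp, Bool.and_eq_true, decide_eq_true_eq]
      constructor
      · rintro ⟨b', hb', h⟩
        have : b' = b := (hu x).unique hb' hb
        subst this
        exact decide_eq_true_iff.1 h
      · intro h
        exact ⟨b, hb, decide_eq_true_iff.2 h⟩
    obtain ⟨T1, h1, h2, h3⟩ := comp_many (c := 2 * Fintype.card B) hT (fun j : ℕ => {m j})
      (fun j s' T' hT' hC => by
        have h := comp_orand hC ((Finset.univ : Finset B).toList.map fun b =>
          (s b, thr (fun x => f (a1 b) (u1 b x)) j)) (by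
            intro p hp
            obtain ⟨b, -, rfl⟩ := List.mem_map.1 hp
            exact ⟨hT' (hs b), hT' (p3 b j)⟩)
        refine ⟨_, Set.subset_insert _ _, comp_mono h (by
          rw [List.length_map, Finset.length_toList, Finset.card_univ]) le_rfl, ?_⟩
        rintro F rfl
        exact Or.inl rfl)
      ((List.range H).map (· + 1))
    have h4 := comp_any h2 H (H + 1)
      (fun (y : Fin H → Bool) (p : Fin (H + 1)) =>
        decide (∀ i : Fin H, y i = decide ((i : ℕ) + 1 ≤ (p : ℕ))))
      (fun i => m ((i : ℕ) + 1)) (fun i => h3 _ (by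
        rw [List.mem_map]
        exact ⟨i, List.mem_range.2 i.2, rfl⟩) rfl)
    let em : Fin (H + 1) → (ι → Bool) → Bool := fun p x =>
      decide (∀ i : Fin H, m ((i : ℕ) + 1) x = decide ((i : ℕ) + 1 ≤ (p : ℕ)))
    have hem : ∀ p x b, s b x = true → (em p x = true ↔ (p : ℕ) = f (a1 b) (u1 b x)) := by
      intro p x b hb
      have hr : f (a1 b) (u1 b x) ≤ H := hf1 _ _ (p1 b x)
      simp only [em, decide_eq_true_eq]
      constructor
      · intro h
        by_contra hne
        rcases Nat.lt_or_gt_of_ne hne with hlt | hlt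
        · have := h ⟨p, lt_of_lt_of_le hlt hr⟩
          rw [hm _ x b hb] at this
          simp only [decide_eq_decide] at this
          omega
        · have hp := p.2
          have := h ⟨f (a1 b) (u1 b x), by omega⟩
          rw [hm _ x b hb] at this
          simp only [decide_eq_decide] at this
          omega
      · intro h i
        rw [hm _ x b hb, h]
    obtain ⟨T2, k1, k2, k3⟩ := comp_many (c := 1) h4
      (fun z : B × Fin (H + 1) => {fun x => s z.1 x && em z.2 x})
      (fun z s' T' hT' hC => by
        have h := comp_and hC (F := s z.1) (G := em z.2) (hT' (Or.inl (h1 (hs z.1))))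
          (hT' (Or.inr ⟨z.2, rfl⟩))
        refine ⟨_, Set.subset_insert _ _, h, ?_⟩
        rintro F rfl
        exact Or.inl rfl)
      (Finset.univ : Finset (B × Fin (H + 1))).toList
    have k4 := comp_const (comp_const k2 true) false
    refine ⟨B × Fin (H + 1), inferInstance, fun z x => s z.1 x && em z.2 x, _, ?_,
      comp_mono k4 ?_ le_rfl, ?_, ?_, ?_⟩
    · rw [Fintype.card_prod, Fintype.card_fin, pow_succ]
      exact Nat.mul_le_mul_right _ hB
    · rw [List.length_map, List.length_range, Finset.length_toList, Finset.card_univ,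
        Fintype.card_prod, Fintype.card_fin, List.length_cons]
      have e1 : H * (2 * Fintype.card B) ≤ H * (2 * (H + 1) ^ t) :=
        Nat.mul_le_mul_left _ (Nat.mul_le_mul_left _ hB)
      have e2 : Fintype.card B * (H + 1) * 1 ≤ (H + 1) ^ t * (H + 1) * 1 :=
        Nat.mul_le_mul_right _ (Nat.mul_le_mul_right _ hB)
      have e3 : H * (2 * (H + 1) ^ t) + (H + 1) ^ t * (H + 1) * 1 ≤
          2 * H * (H + 1) * (H + 1) ^ (t + 1) := by
        have : (3 * H + 1) * (H + 1) ^ t ≤ (2 * H * (H + 1) * (H + 1)) * (H + 1) ^ t :=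
          Nat.mul_le_mul_right _ (by
            calc 3 * H + 1 ≤ 2 * H * 2 * 1 := by omega
              _ ≤ 2 * H * (H + 1) * (H + 1) := by gcongr <;> omega)
        calc H * (2 * (H + 1) ^ t) + (H + 1) ^ t * (H + 1) * 1 = (3 * H + 1) * (H + 1) ^ t := by
              ring
          _ ≤ _ := this
          _ = _ := by ring
      have e4 : 2 * H * (H + 1) * l.length * (H + 1) ^ t ≤
          2 * H * (H + 1) * l.length * (H + 1) ^ (t + 1) :=
        Nat.mul_le_mul_left _ (Nat.pow_le_pow_right (by omega) (by omega))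
      calc _ ≤ 2 * H * (H + 1) * l.length * (H + 1) ^ (t + 1) +
            2 * H * (H + 1) * (H + 1) ^ (t + 1) := by omega
        _ = _ := by ring
    · intro z
      exact Or.inr (Or.inr (k3 z (Finset.mem_toList.2 (Finset.mem_univ z)) rfl))
    · intro x
      obtain ⟨b, hb, hb2⟩ := hu x
      have hr : f (a1 b) (u1 b x) < H + 1 := Nat.lt_succ_of_le (hf1 _ _ (p1 b x))
      refine ⟨(b, ⟨_, hr⟩), ?_, ?_⟩
      · show (s b x && em ⟨_, hr⟩ x) = true
        rw [hb, (hem ⟨_, hr⟩ x b hb).2 rfl]
        rfl
      · rintro ⟨b', p⟩ h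
        have h5 : s b' x = true ∧ em p x = true := by simpa using h
        have h6 : b' = b := hb2 b' h5.1
        subst h6
        have h7 := (hem p x b' h5.1).1 h5.2
        ext
        · rfl
        · exact h7
    · intro g hgm z
      obtain ⟨b, p⟩ := z
      rcases List.mem_cons.1 hgm with rfl | hgm
      · -- the value is constant on the branch
        have hconst : ∃ c : D, ∀ x, (s b x && em p x) = true → φ (g1 (truths (tr x))) = c := by
          by_cases hex : ∃ x, (s b x && em p x) = true
          · obtain ⟨x0, hx0⟩ := hex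
            refine ⟨φ (g1 (truths (tr x0))), fun x hx => ?_⟩
            have e1 : s b x0 = true ∧ em p x0 = true := by simpa using hx0
            have e2 : s b x = true ∧ em p x = true := by simpa using hx
            have e3 := (hem p x0 b e1.1).1 e1.2
            have e4 := (hem p x b e2.1).1 e2.2
            rw [p2 b x e2.1, p2 b x0 e1.1]
            have e5 : u1 b x = u1 b x0 := le_antisymm
              ((hf2 _ _ (p1 b x) _ (p1 b x0)).2 (by omega))
              ((hf2 _ _ (p1 b x0) _ (p1 b x)).2 (by omega))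
            rw [e5]
          · exact ⟨φ (a1 b), fun x hx => absurd ⟨x, hx⟩ hex⟩
        obtain ⟨c, hc⟩ := hconst
        refine ⟨c, fun _ => c, fun x => le_rfl, hc, fun j => ?_⟩
        by_cases hj : j ≤ f c c
        · have : thr (fun _ : ι → Bool => f c c) j = fun _ => true := by
            funext x
            exact decide_eq_true hj
          rw [this]
          exact Or.inr (Or.inl rfl)
        · have : thr (fun _ : ι → Bool => f c c) j = fun _ => false := by
            funext x
            exact decide_eq_false hj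
          rw [this]
          exact Or.inl rfl
      · obtain ⟨a, g', h4, h5, h6⟩ := hg g hgm b
        refine ⟨a, g', h4, fun x hx => h5 x ?_, fun j => ?_⟩
        · have e1 : s b x = true ∧ em p x = true := by simpa using hx
          exact e1.1
        · exact Or.inr (Or.inr (k1 (Or.inl (h1 (h6 j)))))

/-- A circuit with unknown inputs and free gates over an order of height at most `H` is simulated by a
circuit of AND and OR gates and some arbitrary gates with `H` inputs, on the inputs with true bits
and unknown bits. -/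
theorem exists_circuitF {H : ℕ} (hH : 1 ≤ H) (hD : Height D H) (tr : (ι → Bool) → E → Prop)
    (htr : ∀ e, (∃ i, ∀ x, tr x e ↔ x i = true) ∨ ∀ x, ¬ tr x e)
    {t : ℕ} {l : List (Know E → D)} (hl : FCirc t l) {A : Set D} (hA : IsUpperSet A) :
    ∃ (N : ℕ) (C : Circuit ι N), C.fanins = List.replicate t H ∧
      C.size ≤ 2 * H * (H + 2) * l.length * (H + 1) ^ t ∧
      ∀ out ∈ l, ∃ w : Wire ι N, ∀ x, w.eval x (C.vals x) = true ↔
        out (truths (tr x)) ∈ A := by
  choose f hf1 hf2 using hD
  obtain ⟨B, _, s, T, hB, hT, hs, hu, hg⟩ := simF hH hf1 hf2 tr htr hl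
  have key : ∀ g ∈ l, ∀ b, ∃ F : (ι → Bool) → Bool, F ∈ insert (fun _ => false) T ∧
      ∀ x, s b x = true → (F x = true ↔ g (truths (tr x)) ∈ A) := by
    intro g hgm b
    obtain ⟨a, g', h4, h5, h6⟩ := hg g hgm b
    by_cases hex : ∃ j, ∃ u ≤ a, u ∈ A ∧ f a u = j
    · obtain ⟨u, hu1, hu2, hu3⟩ := Nat.find_spec hex
      refine ⟨_, Set.mem_insert_of_mem _ (h6 (Nat.find hex)), fun x hx => ?_⟩
      have hthr : thr (fun x => f a (g' x)) (Nat.find hex) x = true ↔
          Nat.find hex ≤ f a (g' x) := decide_eq_true_iff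
      rw [hthr, h5 x hx]
      constructor
      · intro h
        rw [← hu3] at h
        exact hA ((hf2 _ _ hu1 _ (h4 x)).2 h) hu2
      · intro h
        exact Nat.find_min' hex ⟨_, h4 x, h, rfl⟩
    · refine ⟨_, Set.mem_insert _ _, fun x hx => ?_⟩
      constructor
      · intro h; exact absurd h (by simp)
      · intro h
        rw [h5 x hx] at h
        exact absurd ⟨_, _, h4 x, h, rfl⟩ hex
  choose F hF1 hF2 using key
  obtain ⟨T1, h1, h2, h3⟩ := comp_many (c := 2 * Fintype.card B) (comp_const hT false)
    (fun g : {g // g ∈ l} => {fun x => ((Finset.univ : Finset B).toList.map fun b =>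
        (s b, F g.1 g.2 b)).any fun p => p.1 x && p.2 x})
    (fun g s' T' hT' hC => by
      have h := comp_orand hC ((Finset.univ : Finset B).toList.map fun b =>
        (s b, F g.1 g.2 b)) (by
          intro p hp
          obtain ⟨b, -, rfl⟩ := List.mem_map.1 hp
          exact ⟨hT' (Or.inr (hs b)), hT' (hF1 g.1 g.2 b)⟩)
      refine ⟨_, Set.subset_insert _ _, comp_mono h (by
        rw [List.length_map, Finset.length_toList, Finset.card_univ]) le_rfl, ?_⟩
      rintro K rfl
      exact Or.inl rfl)
    l.attach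
  obtain ⟨N, C, k1, k2, k3⟩ := h2
  refine ⟨N, C, k1, k2.trans ?_, fun out hout => ?_⟩
  · rw [List.length_attach]
    calc _ ≤ 2 * H * (H + 1) * l.length * (H + 1) ^ t + l.length * (2 * (H + 1) ^ t) :=
          Nat.add_le_add_left (Nat.mul_le_mul_left _ (Nat.mul_le_mul_left _ hB)) _
      _ ≤ 2 * H * (H + 1) * l.length * (H + 1) ^ t + H * (l.length * (2 * (H + 1) ^ t)) :=
          Nat.add_le_add_left (Nat.le_mul_of_pos_left _ hH) _
      _ = _ := by ring
  · obtain ⟨w, hw⟩ := k3 _ (h3 ⟨out, hout⟩ (List.mem_attach _ _) rfl)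
    refine ⟨w, fun x => ?_⟩
    rw [hw]
    obtain ⟨b, hb, -⟩ := hu x
    simp only [List.any_map, List.any_eq_true, Finset.mem_toList, Finset.mem_univ, true_and,
      Function.comp, Bool.and_eq_true]
    constructor
    · rintro ⟨b', hb', h⟩
      exact (hF2 out hout b' x hb').1 h
    · intro h
      exact ⟨b, hb, (hF2 out hout b x hb).2 h⟩

theorem FCirc.le_length {t : ℕ} {l : List (Know E → D)} (hl : FCirc t l) : t ≤ l.length := by
  induction hl with
  | nil => exact le_rfl
  | input e i _ _ ih => simp only [List.length_cons]; omega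
  | const c _ ih => simp only [List.length_cons]; omega
  | gate _ _ _ _ ih => simp only [List.length_cons]; omega
  | free φ _ _ ih => simp only [List.length_cons]; omega

end sim

end Pool.Agent.H698.UF
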