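import Pool.Agent.H698.UF.Sim
import Pool.Agent.H660.UT.Low

set_option autoImplicit false

/-! # Triangle detection and circuits with unknown inputs and few free gates (helper698) -/

open scoped Classical
open Finset Filter

namespace Pool.Agent.H698.UF

open Pool.Agent.H698.HF
open Pool.Agent.H520R2.NM
open Pool.Agent.H660.UT (Height gr mem_gr)

/-- The randomised circuit `l`, which has the form `l ω` with probability `p ω`, finds triangles in
graphs with `n` vertices and at most `m` edges, if the edges are known and nothing is known about the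
other pairs of vertices, with advantage `δ`: there are output gates `out ω` and upper sets `acc ω` of
values that mean yes such that for every graph `G` with at most `m` edges the answer is correct with
probability at least `1 / 2 + δ`. -/
def SolvesK {n : ℕ} (m : ℕ) (δ : ℝ) {D : Type} [PartialOrder D] {Ω : Type} [Fintype Ω]
    (p : Ω → ℝ) (l : Ω → List (Know (Sym2 (Fin n)) → D)) : Prop :=
  (∀ ω, 0 ≤ p ω) ∧ ∑ ω, p ω = 1 ∧
  ∃ (out : Ω → Know (Sym2 (Fin n)) → D) (acc : Ω → Set D),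
    (∀ ω, out ω ∈ l ω) ∧ (∀ ω, IsUpperSet (acc ω)) ∧
    ∀ G : SimpleGraph (Fin n), G.edgeSet.ncard ≤ m → 1 / 2 + δ ≤
      ∑ ω ∈ univ.filter (fun ω => out ω (truths (· ∈ G.edgeSet)) ∈ acc ω ↔ ¬ G.CliqueFree 3), p ω

theorem lowerTF {γ θ : ℝ} (hγ : 0 ≤ γ) (hθ : 0 < θ) (h : 2 / 3 * θ + γ < 1) :
    ∃ α : ℝ, 0 < α ∧ ∀ᶠ m : ℕ in atTop, ∀ n : ℕ, m ≤ n ^ 2 →
      ∀ (D : Type) [PartialOrder D] (H : ℕ), 1 ≤ H → Height D H → ∀ t : ℕ,
        ((H : ℝ) + 1) ^ t ≤ (m : ℝ) ^ γ →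
        ∀ (δ : ℝ) (Ω : Type) [Fintype Ω] (p : Ω → ℝ) (l : Ω → List (Know (Sym2 (Fin n)) → D)),
        (∀ ω, ∃ t' ≤ t, FCirc t' (l ω)) → SolvesK m δ p l →
        (δ - (m : ℝ) ^ (-α)) * (m : ℝ) ^ θ ≤
          7 * (H : ℝ) ^ 2 * ((H : ℝ) + 1) ^ t * ∑ ω, p ω * ((l ω).length : ℝ) := by
  obtain ⟨α, hα, hmain⟩ := Pool.Agent.H559R9.tri_sparse γ θ hγ hθ h
  refine ⟨α, hα, ?_⟩
  filter_upwards [hmain, eventually_ge_atTop 1] with m hm hm1
  intro n hn D _ H hH hD t ht δ Ω _ p l hl hs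
  obtain ⟨⟨Λ, _, _, x, hx1, hx2⟩, -⟩ := hm n hn
  obtain ⟨hp, hp1, out, acc, h1, h2, h3⟩ := hs
  choose t' ht' hl' using hl
  have hC := fun ω => exists_circuitF hH hD
    (fun (y : Sym2 (Fin n) → Bool) (e : Sym2 (Fin n)) => e ∈ (gr y).edgeSet)
    (by
      intro e
      by_cases he : e.IsDiag
      · exact Or.inr fun y hy => ((mem_gr y e).1 hy).2 he
      · exact Or.inl ⟨e, fun y => by rw [mem_gr]; simp [he]⟩)
    (hl' ω) (h2 ω)
  choose N C hC1 hC2 hC3 using hC
  choose w hw using fun ω => hC3 ω (out ω) (h1 ω)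
  have hm0 : (0 : ℝ) < m := by exact_mod_cast hm1
  have hmθ : (0 : ℝ) < (m : ℝ) ^ θ := Real.rpow_pos_of_pos hm0 θ
  have hmα : (0 : ℝ) < (m : ℝ) ^ (-α) := Real.rpow_pos_of_pos hm0 _
  set K : ℝ := 7 * (H : ℝ) ^ 2 * ((H : ℝ) + 1) ^ t with hK
  have hK0 : 0 ≤ K := by positivity
  let good : Ω → Λ → Prop := fun ω i => ((w ω).eval (x i) ((C ω).vals (x i)) = true ↔
    ¬ (gr (x i)).CliqueFree 3)
  have hΛ : (0 : ℝ) < Fintype.card Λ := by exact_mod_cast Fintype.card_pos
  have hprod : ∀ ω, ((((C ω).fanins.map (· + 1)).prod : ℕ) : ℝ) ≤ (m : ℝ) ^ γ := by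
    intro ω
    rw [hC1, List.map_replicate, List.prod_replicate]
    push_cast
    refine le_trans ?_ ht
    exact pow_le_pow_right₀ (by
      have : (0 : ℝ) ≤ H := Nat.cast_nonneg H
      linarith) (ht' ω)
  have hsize : ∀ ω, (((C ω).size + (C ω).fanins.sum : ℕ) : ℝ) ≤ K * ((l ω).length : ℝ) := by
    intro ω
    have e1 : (C ω).size + (C ω).fanins.sum ≤ 7 * H ^ 2 * (H + 1) ^ t * (l ω).length := by
      have e2 : (C ω).fanins.sum = t' ω * H := by
        rw [hC1, List.sum_replicate, smul_eq_mul]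
      have e3 : t' ω * H ≤ (l ω).length * H := Nat.mul_le_mul_right _ (hl' ω).le_length
      have e4 : (H + 1) ^ (t' ω) ≤ (H + 1) ^ t := Nat.pow_le_pow_right (by omega) (ht' ω)
      have e5 : 1 ≤ (H + 1) ^ t := Nat.one_le_pow _ _ (by omega)
      calc (C ω).size + (C ω).fanins.sum
          ≤ 2 * H * (H + 2) * (l ω).length * (H + 1) ^ (t' ω) + t' ω * H := by
            rw [e2]
            exact Nat.add_le_add_right (hC2 ω) _
        _ ≤ 2 * H * (H + 2) * (l ω).length * (H + 1) ^ t + (l ω).length * H * 1 := by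
            rw [mul_one]
            exact Nat.add_le_add (Nat.mul_le_mul_left _ e4) e3
        _ ≤ 2 * H * (H + 2) * (l ω).length * (H + 1) ^ t + (l ω).length * H * (H + 1) ^ t :=
            Nat.add_le_add_left (Nat.mul_le_mul_left _ e5) _
        _ = (2 * H * (H + 2) + H) * ((l ω).length * (H + 1) ^ t) := by ring
        _ ≤ (7 * H ^ 2) * ((l ω).length * (H + 1) ^ t) := by
            refine Nat.mul_le_mul_right _ ?_
            nlinarith
        _ = _ := by ring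
    rw [hK]
    exact_mod_cast e1
  -- each circuit
  have hA : ∀ ω, ((univ.filter (good ω)).card : ℝ) ≤
      (1 / 2 + (m : ℝ) ^ (-α) + K * ((l ω).length : ℝ) / (m : ℝ) ^ θ) * Fintype.card Λ := by
    intro ω
    have hq : 0 ≤ K * ((l ω).length : ℝ) / (m : ℝ) ^ θ := by positivity
    by_cases hs : (((C ω).size + (C ω).fanins.sum : ℕ) : ℝ) < (m : ℝ) ^ θ
    · have h4 := hx2 (N ω) (C ω) (w ω) (hprod ω) hs
      have h5 : ((univ.filter (good ω)).card : ℝ) <
          (1 / 2 + (m : ℝ) ^ (-α)) * Fintype.card Λ := h4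
      exact h5.le.trans (mul_le_mul_of_nonneg_right (by linarith) hΛ.le)
    · have h6 : 1 ≤ K * ((l ω).length : ℝ) / (m : ℝ) ^ θ := by
        rw [le_div_iff₀ hmθ, one_mul]
        exact (not_lt.1 hs).trans (hsize ω)
      have h7 : ((univ.filter (good ω)).card : ℝ) ≤ Fintype.card Λ := by
        exact_mod_cast (card_filter_le _ _).trans_eq card_univ
      nlinarith
  -- each graph
  have hB : ∀ i, 1 / 2 + δ ≤ ∑ ω ∈ univ.filter (fun ω => good ω i), p ω := by
    intro i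
    have hcard : (gr (x i)).edgeSet.ncard ≤ m := by
      refine le_trans ?_ (hx1 i)
      rw [← Set.ncard_coe_finset]
      refine Set.ncard_le_ncard ?_ (Finset.finite_toSet _)
      intro e he
      simpa using ((mem_gr _ _).1 he).1
    refine (h3 (gr (x i)) hcard).trans (sum_le_sum_of_subset_of_nonneg ?_ fun ω _ _ => hp ω)
    intro ω hω
    rw [mem_filter] at hω ⊢
    refine ⟨hω.1, ?_⟩
    show (_ = true) ↔ _
    rw [hw]
    exact hω.2
  have hsum : (1 / 2 + δ) * Fintype.card Λ ≤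
      ∑ ω, p ω * ((univ.filter (good ω)).card : ℝ) := by
    calc (1 / 2 + δ) * Fintype.card Λ = ∑ _i : Λ, (1 / 2 + δ) := by
          rw [sum_const, card_univ, nsmul_eq_mul, mul_comm]
      _ ≤ ∑ i, ∑ ω ∈ univ.filter (fun ω => good ω i), p ω := sum_le_sum fun i _ => hB i
      _ = ∑ i, ∑ ω, if good ω i then p ω else 0 := by simp only [sum_filter]
      _ = ∑ ω, ∑ i, if good ω i then p ω else 0 := sum_comm
      _ = ∑ ω, p ω * ((univ.filter (good ω)).card : ℝ) := by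
          refine sum_congr rfl fun ω _ => ?_
          rw [← sum_filter, sum_const, nsmul_eq_mul, mul_comm]
  have hsum2 : ∑ ω, p ω * ((univ.filter (good ω)).card : ℝ) ≤
      (1 / 2 + (m : ℝ) ^ (-α) + K * (∑ ω, p ω * ((l ω).length : ℝ)) / (m : ℝ) ^ θ) *
        Fintype.card Λ := by
    calc ∑ ω, p ω * ((univ.filter (good ω)).card : ℝ) ≤ ∑ ω, p ω *
          ((1 / 2 + (m : ℝ) ^ (-α) + K * ((l ω).length : ℝ) / (m : ℝ) ^ θ) * Fintype.card Λ) :=
          sum_le_sum fun ω _ => mul_le_mul_of_nonneg_left (hA ω) (hp ω)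
      _ = ((1 / 2 + (m : ℝ) ^ (-α)) * (∑ ω, p ω) +
          K * (∑ ω, p ω * ((l ω).length : ℝ)) / (m : ℝ) ^ θ) * Fintype.card Λ := by
          rw [mul_sum, mul_sum, sum_div, ← sum_add_distrib, sum_mul]
          refine sum_congr rfl fun ω _ => ?_
          ring
      _ = _ := by rw [hp1, mul_one]
  have hfin : 1 / 2 + δ ≤
      1 / 2 + (m : ℝ) ^ (-α) + K * (∑ ω, p ω * ((l ω).length : ℝ)) / (m : ℝ) ^ θ :=
    le_of_mul_le_mul_right (hsum.trans hsum2) hΛ
  have hfin2 : δ - (m : ℝ) ^ (-α) ≤ K * (∑ ω, p ω * ((l ω).length : ℝ)) / (m : ℝ) ^ θ := by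
    linarith
  rwa [le_div_iff₀ hmθ] at hfin2

end Pool.Agent.H698.UF
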