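import Pool.Agent.H698.UF.Tri
import Pool.Agent.H660.UT.Up

set_option autoImplicit false

/-! # Triangle detection and circuits with unknown inputs and few free gates: the upper bound
(helper698) -/

open scoped Classical
open Finset Filter

namespace Pool.Agent.H698.UF

open Pool.Agent.H698.HF
open Flat (unknown known)

theorem fcirc_of_circ {E D : Type} [PartialOrder D] {l : List (Know E → D)} (h : Circ l) :
    FCirc 0 l := by
  induction h with
  | nil => exact FCirc.nil
  | input e i _ hi ih => exact FCirc.input e i ih hi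
  | const c _ ih => exact FCirc.const c ih
  | gate _ hφ hf hg ih => exact FCirc.gate ih hφ hf hg

theorem upperTF {n : ℕ} (hn : 2 ≤ n) :
    ∃ l : List (Know (Sym2 (Fin n)) → Flat Bool), FCirc 0 l ∧ l.length ≤ 4 * n ^ 3 ∧
      ∀ m : ℕ, SolvesK m (1 / 2) (fun _ : Unit => 1) (fun _ => l) := by
  obtain ⟨l, h1, h2, -, out, h3, h4⟩ := Pool.Agent.H660.UT.upperT hn
  refine ⟨l, fcirc_of_circ h1, h2, fun m => ⟨fun _ => zero_le_one, by simp, fun _ => out,
    fun _ => {known true}, fun _ => h3, fun _ x y hxy hx => ?_, fun G _ => ?_⟩⟩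
  · rw [Set.mem_singleton_iff] at hx ⊢
    rw [hx, Flat.le_iff] at hxy
    rcases hxy with h | h
    · exact absurd h (by simp)
    · exact h.symm
  · have h : out (truths (· ∈ G.edgeSet)) ∈ ({known true} : Set (Flat Bool)) ↔
        ¬ G.CliqueFree 3 := by
      rw [Set.mem_singleton_iff, (h4 _ ⟨G, truths_le_full _⟩).1]
      constructor
      · intro h
        exact h G (truths_le_full _)
      · intro h G' hG' hfree
        refine h (SimpleGraph.CliqueFree.anti (fun a b hab => ?_) hfree)
        have h5 := hG' s(a, b)
        unfold truths full at h5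
        have h6 : s(a, b) ∈ G.edgeSet := (SimpleGraph.mem_edgeSet G).2 hab
        rw [if_pos h6] at h5
        rcases h5 with h5 | h5
        · exact absurd h5 (by simp)
        · have h7 : decide (s(a, b) ∈ G'.edgeSet) = true := by
            simpa using h5
          exact (SimpleGraph.mem_edgeSet G').1 (of_decide_eq_true h7)
    show (1 / 2 + 1 / 2 : ℝ) ≤ ∑ ω ∈ univ.filter (fun _ : Unit =>
      out (truths (· ∈ G.edgeSet)) ∈ ({known true} : Set (Flat Bool)) ↔ ¬ G.CliqueFree 3), 1
    rw [filter_true_of_mem (fun _ _ => h)]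
    norm_num

end Pool.Agent.H698.UF
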