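import Pool.Agent.H698.UF.Sim
import Pool.Graph.R_pool_sql_team_seeded_63374d34.N631.FV.Final

set_option autoImplicit false

/-! # Vertex cover and circuits with unknown inputs and few free gates (helper698) -/

open scoped Classical
open Finset

namespace Pool.Agent.H698.UF

open Pool.Agent.H698.HF
open Pool.Agent.H660.UT (Height)
open H630VC (Mono2 WGraph wInputs IsCover pmGraphs unit)
open Pool.Agent.N631.FT (TProg bits rank)

section sim

variable {I E D : Type} [PartialOrder D]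

/-- For the inputs in `S` the ranks of the values of the gates in `l` are among the known numbers. -/
def St (f : D → D → ℕ) (tr : I → E → Prop) (l : List (Know E → D)) (L : List (I → ℝ))
    (S : Set I) : Prop :=
  ∀ g ∈ l, ∃ a : D, ∃ r ∈ L, ∀ x ∈ S, g (truths (tr x)) ≤ a ∧
    r x = (f a (g (truths (tr x))) : ℝ)

/-- On `S` the function `F` is computed by a program of width `m` in at most `s` steps. -/
def Cont (inp : Set (I → ℝ)) (L : List (I → ℝ)) (S : Set I) (s m : ℕ) (F : I → Bool) : Prop :=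
  ∃ F' : I → Bool, (∀ x ∈ S, F' x = F x) ∧ ∃ s' ≤ s, TProg inp L s' m F'

theorem Cont.mono {inp : Set (I → ℝ)} {L : List (I → ℝ)} {S : Set I} {s s₁ m : ℕ} {F : I → Bool}
    (h : Cont inp L S s m F) (hs : s ≤ s₁) : Cont inp L S s₁ m F := by
  obtain ⟨F', h1, s', h2, h3⟩ := h
  exact ⟨F', h1, s', h2.trans hs, h3⟩

theorem Cont.input {inp : Set (I → ℝ)} {L : List (I → ℝ)} {S : Set I} {s m : ℕ} {F : I → Bool}
    {h : I → ℝ} (hh : h ∈ inp) (hc : Cont inp (h :: L) S s m F) : Cont inp L S (s + 1) m F := by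
  obtain ⟨F', h1, s', h2, h3⟩ := hc
  exact ⟨F', h1, s' + 1, by omega, TProg.input hh h3⟩

theorem Cont.gate {inp : Set (I → ℝ)} {L : List (I → ℝ)} {S : Set I} {s m : ℕ} {F : I → Bool}
    {φ : ℝ → ℝ → ℝ} (hφ : Mono2 φ) {u v : I → ℝ} (hu : u ∈ L) (hv : v ∈ L)
    (hc : Cont inp ((fun x => φ (u x) (v x)) :: L) S s m F) : Cont inp L S (s + 1) m F := by
  obtain ⟨F', h1, s', h2, h3⟩ := hc
  exact ⟨F', h1, s' + 1, by omega, TProg.gate hφ hu hv h3⟩

theorem Cont.tests {inp : Set (I → ℝ)} {L : List (I → ℝ)} {S : Set I} {s m : ℕ} {F : I → Bool}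
    (hm : 1 ≤ m) {u : I → ℝ} (hu : u ∈ L) (w : ℕ) (θ : Fin w → ℝ)
    (hc : ∀ b : Fin w → Bool, Cont inp L {x | x ∈ S ∧ bits (fun _ => u) θ x = b} s m F) :
    Cont inp L S s ((w + 1) * m) F := by
  choose F' h1 s' h2 h3 using hc
  refine ⟨fun x => F' (bits (fun _ => u) θ x) x, fun x hx => h1 _ x ⟨hx, rfl⟩, s, le_rfl, ?_⟩
  have h := TProg.tests (inp := inp) (l := L) (fun _ : Fin w => u) θ s' s (fun _ => m) F'
    (fun _ => hu) (fun _ => hm) h2 h3
  rwa [sum_const, card_range, smul_eq_mul] at h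

theorem mono_ext {H : ℕ} (S : Set I) (r1 r2 : I → ℝ) (r : I → ℕ) (hr : ∀ x ∈ S, r x ≤ H)
    (hmono : ∀ x ∈ S, ∀ y ∈ S, r1 x ≤ r1 y → r2 x ≤ r2 y → r x ≤ r y) :
    ∃ φ : ℝ → ℝ → ℝ, Mono2 φ ∧ ∀ x ∈ S, φ (r1 x) (r2 x) = r x := by
  refine ⟨fun u v => (((range (H + 1)).filter fun j =>
    ∃ x ∈ S, r1 x ≤ u ∧ r2 x ≤ v ∧ j ≤ r x).card : ℝ) - 1, ?_, fun x hx => ?_⟩
  · intro a a' b b' ha hb
    have : ((range (H + 1)).filter fun j => ∃ x ∈ S, r1 x ≤ a ∧ r2 x ≤ b ∧ j ≤ r x).card ≤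
        ((range (H + 1)).filter fun j => ∃ x ∈ S, r1 x ≤ a' ∧ r2 x ≤ b' ∧ j ≤ r x).card := by
      refine card_le_card fun j hj => ?_
      rw [mem_filter] at hj ⊢
      obtain ⟨h1, x, h2, h3, h4, h5⟩ := hj
      exact ⟨h1, x, h2, h3.trans ha, h4.trans hb, h5⟩
    have h2 : (((range (H + 1)).filter fun j => ∃ x ∈ S, r1 x ≤ a ∧ r2 x ≤ b ∧ j ≤ r x).card : ℝ) ≤
        ((range (H + 1)).filter fun j => ∃ x ∈ S, r1 x ≤ a' ∧ r2 x ≤ b' ∧ j ≤ r x).card := by
      exact_mod_cast this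
    show _ - (1 : ℝ) ≤ _ - 1
    linarith
  · have h1 : ((range (H + 1)).filter fun j => ∃ y ∈ S, r1 y ≤ r1 x ∧ r2 y ≤ r2 x ∧ j ≤ r y) =
        range (r x + 1) := by
      ext j
      rw [mem_filter, mem_range, mem_range]
      constructor
      · rintro ⟨-, y, hy, h2, h3, h4⟩
        have := hmono y hy x hx h2 h3
        omega
      · intro hj
        have := hr x hx
        exact ⟨by omega, x, hx, le_rfl, le_rfl, by omega⟩
    show (((range (H + 1)).filter fun j =>
      ∃ y ∈ S, r1 y ≤ r1 x ∧ r2 y ≤ r2 x ∧ j ≤ r y).card : ℝ) - 1 = _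
    rw [h1, card_range]
    push_cast
    ring

theorem tsim {H : ℕ} {f : D → D → ℕ} (hf1 : ∀ a, ∀ x ≤ a, f a x ≤ H)
    (hf2 : ∀ a, ∀ x ≤ a, ∀ y ≤ a, (x ≤ y ↔ f a x ≤ f a y)) {inp : Set (I → ℝ)}
    (tr : I → E → Prop) (hconst : ∀ c : ℝ, (fun _ => c) ∈ inp)
    (hbit : ∀ e, ∃ h ∈ inp, ∀ x, h x = if tr x e then 1 else 0) {t : ℕ}
    {l : List (Know E → D)} (hl : FCirc t l) :
    ∀ (F : I → Bool) (s m : ℕ), 1 ≤ m → (∀ L S, St f tr l L S → Cont inp L S s m F) →
      ∀ L S, Cont inp L S (s + 2 * l.length) ((H + 1) ^ t * m) F := by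
  induction hl with
  | nil =>
    intro F s m hm h L S
    simpa using h L S (fun g hg => absurd hg (by simp))
  | @input t l e i hl hi ih =>
    intro F s m hm h L S
    refine (ih F (s + 2) m hm (fun L S hSt => ?_) L S).mono
      (by simp only [List.length_cons]; omega)
    obtain ⟨u, hu, hu2⟩ := hbit e
    refine Cont.input hu (Cont.gate (φ := fun a _ => if 1 ≤ a then
      (f (i (some true)) (i (some true)) : ℝ) else f (i (some true)) (i none)) ?_
      List.mem_cons_self List.mem_cons_self (h _ _ ?_))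
    · intro a a' b b' ha _
      have hle : (f (i (some true)) (i none) : ℝ) ≤ f (i (some true)) (i (some true)) := by
        exact_mod_cast (hf2 _ _ (hi true) _ le_rfl).1 (hi true)
      dsimp only
      split_ifs with h1 h2 h2
      · exact le_rfl
      · exact absurd (h1.trans ha) h2
      · exact hle
      · exact le_rfl
    · intro g hg
      rcases List.mem_cons.1 hg with rfl | hg
      · refine ⟨i (some true), _, List.mem_cons_self, fun x _ => ?_⟩
        dsimp only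
        rw [hu2]
        unfold truths
        by_cases hx : tr x e
        · simp [hx]
        · simp [hx, hi true]
      · obtain ⟨a, r, h1, h2⟩ := hSt g hg
        exact ⟨a, r, List.mem_cons_of_mem _ (List.mem_cons_of_mem _ h1), h2⟩
  | @const t l c hl ih =>
    intro F s m hm h L S
    refine (ih F (s + 1) m hm (fun L S hSt => ?_) L S).mono
      (by simp only [List.length_cons]; omega)
    refine Cont.input (hconst (f c c : ℝ)) (h _ _ ?_)
    intro g hg
    rcases List.mem_cons.1 hg with rfl | hg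
    · exact ⟨c, _, List.mem_cons_self, fun x _ => ⟨le_rfl, rfl⟩⟩
    · obtain ⟨a, r, h1, h2⟩ := hSt g hg
      exact ⟨a, r, List.mem_cons_of_mem _ h1, h2⟩
  | @gate t l φ g1 g2 hl hφ hg1 hg2 ih =>
    intro F s m hm h L S
    refine (ih F (s + 1) m hm (fun L S hSt => ?_) L S).mono
      (by simp only [List.length_cons]; omega)
    obtain ⟨a1, r1, p1, p2⟩ := hSt g1 hg1
    obtain ⟨a2, r2, q1, q2⟩ := hSt g2 hg2
    have hle : ∀ x ∈ S, φ (g1 (truths (tr x))) (g2 (truths (tr x))) ≤ φ a1 a2 :=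
      fun x hx => hφ _ _ _ _ (p2 x hx).1 (q2 x hx).1
    obtain ⟨ψ, hψ, hψ2⟩ := mono_ext (H := H) S r1 r2
      (fun x => f (φ a1 a2) (φ (g1 (truths (tr x))) (g2 (truths (tr x)))))
      (fun x hx => hf1 _ _ (hle x hx)) (by
        intro x hx y hy h1 h2
        rw [(p2 x hx).2, (p2 y hy).2] at h1
        rw [(q2 x hx).2, (q2 y hy).2] at h2
        have e1 := (hf2 _ _ (p2 x hx).1 _ (p2 y hy).1).2 (by exact_mod_cast h1)
        have e2 := (hf2 _ _ (q2 x hx).1 _ (q2 y hy).1).2 (by exact_mod_cast h2)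
        exact (hf2 _ _ (hle x hx) _ (hle y hy)).1 (hφ _ _ _ _ e1 e2))
    refine Cont.gate hψ p1 q1 (h _ _ ?_)
    intro g hg
    rcases List.mem_cons.1 hg with rfl | hg
    · exact ⟨φ a1 a2, _, List.mem_cons_self, fun x hx => ⟨hle x hx, hψ2 x hx⟩⟩
    · obtain ⟨a, r, h1, h2⟩ := hSt g hg
      exact ⟨a, r, List.mem_cons_of_mem _ h1, h2⟩
  | @free t l φ g1 hl hg1 ih =>
    intro F s m hm h L S
    have hm' : 1 ≤ (H + 1) * m := by nlinarith
    have key := (ih F (s + 1) ((H + 1) * m) hm' (fun L S hSt => ?_) L S).mono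
      (show s + 1 + 2 * l.length ≤
        s + 2 * ((fun P => φ (g1 P)) :: l : List (Know E → D)).length by
        simp only [List.length_cons]; omega)
    · rw [pow_succ, mul_assoc]
      exact key
    obtain ⟨a1, r1, p1, p2⟩ := hSt g1 hg1
    refine Cont.tests hm p1 H (fun i => ((i : ℕ) : ℝ) + 1) (fun b => ?_)
    have hconst' : ∃ c : D, ∀ x, x ∈ S ∧ bits (fun _ => r1) (fun i : Fin H => ((i : ℕ) : ℝ) + 1) x
        = b → φ (g1 (truths (tr x))) = c := by
      by_cases hex : ∃ x, x ∈ S ∧ bits (fun _ => r1) (fun i : Fin H => ((i : ℕ) : ℝ) + 1) x = b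
      · obtain ⟨x0, hx0, hb0⟩ := hex
        refine ⟨φ (g1 (truths (tr x0))), fun x hx => ?_⟩
        obtain ⟨hx, hb⟩ := hx
        have e1 : ∀ i : ℕ, i < H → (i + 1 ≤ f a1 (g1 (truths (tr x))) ↔
            i + 1 ≤ f a1 (g1 (truths (tr x0)))) := by
          intro i hi
          have e2 := congrFun (hb.trans hb0.symm) ⟨i, hi⟩
          have e3 : (((i : ℕ) : ℝ) + 1 ≤ r1 x) ↔ (((i : ℕ) : ℝ) + 1 ≤ r1 x0) :=
            decide_eq_decide.1 e2
          rw [(p2 x hx).2, (p2 x0 hx0).2] at e3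
          constructor
          · intro h
            exact_mod_cast e3.1 (by exact_mod_cast h)
          · intro h
            exact_mod_cast e3.2 (by exact_mod_cast h)
        have h1 := hf1 _ _ (p2 x hx).1
        have h2 := hf1 _ _ (p2 x0 hx0).1
        have e4 : f a1 (g1 (truths (tr x))) = f a1 (g1 (truths (tr x0))) := by
          by_contra hne
          rcases Nat.lt_or_gt_of_ne hne with hlt | hlt
          · have := (e1 (f a1 (g1 (truths (tr x)))) (by omega)).2 (by omega)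
            omega
          · have := (e1 (f a1 (g1 (truths (tr x0)))) (by omega)).1 (by omega)
            omega
        have e5 : g1 (truths (tr x)) = g1 (truths (tr x0)) := le_antisymm
          ((hf2 _ _ (p2 x hx).1 _ (p2 x0 hx0).1).2 (by omega))
          ((hf2 _ _ (p2 x0 hx0).1 _ (p2 x hx).1).2 (by omega))
        rw [e5]
      · exact ⟨φ a1, fun x hx => absurd ⟨x, hx⟩ hex⟩
    obtain ⟨c, hc⟩ := hconst'
    refine Cont.input (hconst (f c c : ℝ)) (h _ _ ?_)
    intro g hg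
    rcases List.mem_cons.1 hg with rfl | hg
    · refine ⟨c, _, List.mem_cons_self, fun x hx => ?_⟩
      dsimp only
      rw [hc x hx]
      exact ⟨le_rfl, rfl⟩
    · obtain ⟨a, r, h1, h2⟩ := hSt g hg
      exact ⟨a, r, List.mem_cons_of_mem _ h1, fun x hx => h2 x hx.1⟩

theorem tprog_out {H : ℕ} (hD : Height D H) {inp : Set (I → ℝ)} (tr : I → E → Prop)
    (hconst : ∀ c : ℝ, (fun _ => c) ∈ inp)
    (hbit : ∀ e, ∃ h ∈ inp, ∀ x, h x = if tr x e then 1 else 0) {t : ℕ}
    {l : List (Know E → D)} (hl : FCirc t l) {out : Know E → D} (hout : out ∈ l) {A : Set D}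
    (hA : IsUpperSet A) :
    ∃ s ≤ 2 * l.length, TProg inp [] s ((H + 1) ^ t * 2)
      (fun x => decide (out (truths (tr x)) ∈ A)) := by
  choose f hf1 hf2 using hD
  have key := tsim hf1 hf2 tr hconst hbit hl (fun x => decide (out (truths (tr x)) ∈ A)) 0 2
    (by norm_num) (fun L S hSt => ?_) [] Set.univ
  · obtain ⟨F', h1, s', h2, h3⟩ := key
    have : F' = fun x => decide (out (truths (tr x)) ∈ A) := funext fun x => h1 x trivial
    rw [this] at h3
    exact ⟨s', by simpa using h2, h3⟩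
  · obtain ⟨a, r, h1, h2⟩ := hSt out hout
    have hθ : ∃ θ : ℝ, ∀ x ∈ S, (θ ≤ r x ↔ out (truths (tr x)) ∈ A) := by
      by_cases hex : ∃ j, ∃ u ≤ a, u ∈ A ∧ f a u = j
      · obtain ⟨u, hu1, hu2, hu3⟩ := Nat.find_spec hex
        refine ⟨(Nat.find hex : ℝ), fun x hx => ?_⟩
        rw [(h2 x hx).2, Nat.cast_le]
        constructor
        · intro h
          rw [← hu3] at h
          exact hA ((hf2 _ _ hu1 _ (h2 x hx).1).2 h) hu2
        · intro h
          exact Nat.find_min' hex ⟨_, (h2 x hx).1, h, rfl⟩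
      · refine ⟨(H : ℝ) + 1, fun x hx => ?_⟩
        rw [(h2 x hx).2]
        constructor
        · intro h
          have h3 := hf1 _ _ (h2 x hx).1
          have h4 : H + 1 ≤ f a (out (truths (tr x))) := by exact_mod_cast h
          omega
        · intro h
          exact absurd ⟨_, _, (h2 x hx).1, h, rfl⟩ hex
    obtain ⟨θ, hθ⟩ := hθ
    have h3 := Cont.tests (inp := inp) (S := S) (s := 0)
      (F := fun x => decide (out (truths (tr x)) ∈ A)) le_rfl h1 1 (fun _ => θ) (fun b => by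
        refine ⟨fun _ => b 0, fun x hx => ?_, 0, le_rfl, TProg.answer _⟩
        have h4 : decide (θ ≤ r x) = b 0 := congrFun hx.2 0
        show b 0 = _
        rw [← h4]
        exact decide_eq_decide.2 (hθ x hx.1))
    exact h3

end sim

/-- the pairs of adjacent vertices -/
def adjb {V : Type} (G : SimpleGraph V) (e : V × V) : Prop := G.Adj e.1 e.2

/-- The randomised circuit `l` (uniform on `Ω`) solves the gap problem of vertex cover for the graphs
in `𝓖` if the edges are known and nothing is known about the other pairs: there are output gates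
`out ω` and upper sets `acc ω` of values that mean alarm such that for at least three quarters of the
`ω` the alarm is raised if all vertex covers of the graph have at least `K` vertices, and for at least
three quarters of the `ω` it is not raised if there is a vertex cover with at most `k` vertices. -/
def SolvesG {V : Type} [Fintype V] (k K : ℝ) (𝓖 : Set (SimpleGraph V)) {D : Type}
    [PartialOrder D] {Ω : Type} [Fintype Ω] (l : Ω → List (Know (V × V) → D)) : Prop :=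
  ∃ (out : Ω → Know (V × V) → D) (acc : Ω → Set D),
    (∀ ω, out ω ∈ l ω) ∧ (∀ ω, IsUpperSet (acc ω)) ∧ ∀ G ∈ 𝓖,
      ((∀ C : Finset V, IsCover G C → K ≤ C.card) → 3 * Fintype.card Ω ≤
        4 * (univ.filter fun ω => out ω (truths (adjb G)) ∈ acc ω).card) ∧
      ((∃ C : Finset V, IsCover G C ∧ (C.card : ℝ) ≤ k) → 3 * Fintype.card Ω ≤
        4 * (univ.filter fun ω => out ω (truths (adjb G)) ∉ acc ω).card)

theorem inputs_const (V : Type) (c : ℝ) : (fun _ => c) ∈ wInputs V := Or.inr (Or.inr ⟨c, rfl⟩)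

theorem inputs_bit (V : Type) (e : V × V) :
    ∃ h ∈ wInputs V, ∀ x : WGraph V, h x = if adjb x.G e then 1 else 0 :=
  ⟨_, Or.inl ⟨e.1, e.2, rfl⟩, fun _ => rfl⟩

theorem width_le {H t t' : ℕ} {y : ℝ} (ht : t' ≤ t) (h : 2 * ((H : ℝ) + 1) ^ t ≤ y) :
    (((H + 1) ^ t' * 2 : ℕ) : ℝ) ≤ y := by
  push_cast
  have h1 : ((H : ℝ) + 1) ^ t' ≤ ((H : ℝ) + 1) ^ t := pow_le_pow_right₀ (by
    have : (0 : ℝ) ≤ H := Nat.cast_nonneg H
    linarith) ht
  linarith

theorem lower_pmF (η : ℝ) (hη : 0 < η) (α : ℝ) (hα : 0 ≤ α) (hα2 : α < 1 / 2) :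
    ∃ N : ℕ, ∀ n : ℕ, N ≤ n → ∀ (D : Type) [PartialOrder D] (H : ℕ), Height D H →
      ∀ t : ℕ, 2 * ((H : ℝ) + 1) ^ t ≤ (n : ℝ) ^ α →
      ∀ (Ω : Type) [Fintype Ω] [Nonempty Ω]
        (l : Ω → List (Know ((Fin n ⊕ Fin n) × (Fin n ⊕ Fin n)) → D)),
      (∀ ω, ∃ t' ≤ t, FCirc t' (l ω)) → SolvesG ((1 + η) * n) ((2 - η) * n) (pmGraphs n) l →
      ∃ ω, (2 : ℝ) ^ ((n : ℝ) ^ ((1 - 2 * α) / 7)) ≤ 2 * (l ω).length := by
  obtain ⟨N, hN⟩ := Pool.Agent.N631.FV.programs η hη α hα hα2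
  refine ⟨N, fun n hn D _ H hD t ht Ω _ _ l hl hs => ?_⟩
  obtain ⟨out, acc, h1, h2, h3⟩ := hs
  choose t' ht' hl' using hl
  choose s hs1 hs2 using fun ω => tprog_out (I := WGraph (Fin n ⊕ Fin n)) hD (fun x => adjb x.G)
    (inputs_const _) (inputs_bit _) (hl' ω) (h1 ω) (h2 ω)
  obtain ⟨ω, hω⟩ := hN n hn Ω s _ _ hs2 (fun ω => width_le (ht' ω) ht)
    (fun G hG hc => by
      refine ((h3 G hG).1 hc).trans (le_of_eq ?_)
      congr 2
      refine filter_congr fun ω _ => ?_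
      show _ ↔ decide _ = true
      rw [decide_eq_true_iff]
      rfl)
    (fun G hG hc => by
      refine ((h3 G hG).2 hc).trans (le_of_eq ?_)
      congr 2
      refine filter_congr fun ω _ => ?_
      show _ ↔ decide _ = false
      rw [decide_eq_false_iff_not]
      rfl)
  refine ⟨ω, hω.trans ?_⟩
  exact_mod_cast hs1 ω

theorem lower_allF (η : ℝ) (hη : 0 < η) (hη2 : η ≤ 1 / 2) :
    ∃ N : ℕ, ∀ n : ℕ, N ≤ n → ∀ ρ : ℝ, 1 ≤ ρ → ∀ (D : Type) [PartialOrder D] (H : ℕ),
      Height D H → ∀ t : ℕ, ρ * (2 * ((H : ℝ) + 1) ^ t) ≤ (n : ℝ) ^ (1 / 2 - η) →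
      ∀ (Ω : Type) [Fintype Ω] [Nonempty Ω] (l : Ω → List (Know (Fin n × Fin n) → D)),
      (∀ ω, ∃ t' ≤ t, FCirc t' (l ω)) → SolvesG (η * n / ρ) ((1 - η) * n) Set.univ l →
      ∃ ω, (2 : ℝ) ^ ((n : ℝ) ^ (η / 4)) ≤ 2 * (l ω).length := by
  obtain ⟨N, hN⟩ := Pool.Agent.N631.FV.programs_all η hη hη2
  refine ⟨N, fun n hn ρ hρ D _ H hD t ht Ω _ _ l hl hs => ?_⟩
  obtain ⟨out, acc, h1, h2, h3⟩ := hs
  have hρ0 : 0 < ρ := by linarith
  choose t' ht' hl' using hl
  choose s hs1 hs2 using fun ω => tprog_out (I := WGraph (Fin n)) hD (fun x => adjb x.G)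
    (inputs_const _) (inputs_bit _) (hl' ω) (h1 ω) (h2 ω)
  obtain ⟨ω, hω⟩ := hN n hn ρ hρ Ω s _ _ hs2 (fun ω => by
      refine le_trans (mul_le_mul_of_nonneg_left (width_le (ht' ω) le_rfl) hρ0.le) ht)
    (fun G hc => by
      refine ((h3 G trivial).1 hc).trans (le_of_eq ?_)
      congr 2
      refine filter_congr fun ω _ => ?_
      show _ ↔ decide _ = true
      rw [decide_eq_true_iff]
      rfl)
    (fun G hc => by
      obtain ⟨C, hC, hC2⟩ := hc
      refine ((h3 G trivial).2 ⟨C, hC, by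
        rw [le_div_iff₀ hρ0]
        linarith⟩).trans (le_of_eq ?_)
      congr 2
      refine filter_congr fun ω _ => ?_
      show _ ↔ decide _ = false
      rw [decide_eq_false_iff_not]
      rfl)
  refine ⟨ω, hω.trans ?_⟩
  exact_mod_cast hs1 ω

end Pool.Agent.H698.UF
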